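import Mathlib
import Pool.Agent.H14.KnApp

set_option autoImplicit false

namespace Pool.Agent.Results.MP_c7e63d_co.Exact

open Finset Pool.Agent.H14.KnApp

/-- the term of `v_±(n, h)` belonging to the divisor `d` (integer floor division). -/
def term (n h d : ℕ) : ℤ := (2 * (((d : ℤ) - 2) / (2 * h)) + 1) * ((n : ℤ) / d)

/-- `χ_±(ℤ_n, [0,s]) = v_±(n,s) + 1`. -/
theorem result (n s : ℕ) (hn : 1 ≤ n) (hs : 1 ≤ s) : ∃ (χ : ℕ) (v : ℤ),
    IsLeast {m : ℕ | ∀ A : Finset (ZMod n), m ≤ A.card → Spanning s A} χ ∧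
    IsGreatest {x : ℤ | ∃ d, d ∣ n ∧ x = term n s d} v ∧ (χ : ℤ) = v + 1 := by
  have : NeZero n := ⟨by omega⟩
  obtain ⟨d0, hd0, hmax⟩ := exists_max_image n.divisors (term n s) ⟨1, by simp; omega⟩
  have hd0' := Nat.dvd_of_mem_divisors hd0
  have hmax' : ∀ d, d ∣ n → term n s d ≤ term n s d0 := fun d hd =>
    hmax d (Nat.mem_divisors.2 ⟨hd, by omega⟩)
  have hterm : ∀ d m : ℕ, 2 ≤ d → n = d * m →
      term n s d = (((2 * ((d - 2) / (2 * s)) + 1) * m : ℕ) : ℤ) := by
    intro d m h2 e
    have : (n : ℤ) / d = m := by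
      rw [e]; push_cast; exact Int.mul_ediv_cancel_left _ (by omega)
    rw [term, this]
    push_cast [h2]
    rfl
  have hv : -1 ≤ term n s d0 := by
    rcases hn.eq_or_lt with h | h
    · subst h
      have e : d0 = 1 := Nat.dvd_one.1 hd0'
      subst e
      have : (((1 : ℕ) : ℤ) - 2) / (2 * s) = -1 :=
        Int.ediv_eq_neg_one_of_neg_of_le (by norm_num) (by omega)
      rw [term, this]
      norm_num
    · have := hmax' n dvd_rfl
      rw [hterm n 1 h (mul_one n).symm] at this
      omega
  refine ⟨(term n s d0 + 1).toNat, term n s d0, ⟨?_, ?_⟩, ⟨⟨d0, hd0', rfl⟩, ?_⟩, by omega⟩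
  · intro A hA
    by_contra hc
    obtain ⟨d, k, m, e, h2, hk, h3, h4, h5⟩ := nonspan s hs A hc
    suffices (A.card : ℤ) ≤ term n s d0 by omega
    rcases Nat.even_or_odd' k with ⟨j, rfl | rfl⟩
    · have hev : ¬ Odd n := fun h => by have := Nat.odd_iff.1 (h5 h); omega
      obtain ⟨t, ht⟩ := Nat.not_odd_iff_even.1 hev
      rcases hs.eq_or_lt with h | h
      · subst h
        refine le_trans ?_ (hmax' n dvd_rfl)
        rw [hterm n 1 (by omega) (mul_one n).symm]
        have hlt : A.card < n := by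
          have : A ≠ univ := by
            rintro rfl
            refine hc fun g => ⟨Pi.single g 1, ?_, ?_⟩
            · rw [sum_eq_single g] <;> simp +contextual [Pi.single_apply]
            · simp [Pi.single_apply]
          simpa using card_lt_card (Finset.ssubset_univ_iff.2 this)
        omega
      · refine le_trans ?_ (hmax' 2 ⟨t, by omega⟩)
        rw [hterm 2 t le_rfl (by omega)]
        have h6 : 2 * (2 * j) ≤ d := by nlinarith
        have h7 := Nat.mul_le_mul_right m h6
        simp only [Nat.sub_self, Nat.zero_div]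
        rw [mul_assoc] at h7
        omega
    · refine le_trans ?_ (hmax' d ⟨m, e⟩)
      rw [hterm d m h2 e]
      have h6 : j ≤ (d - 2) / (2 * s) := by
        rw [Nat.le_div_iff_mul_le (by omega)]
        have : s * (2 * j + 1) = j * (2 * s) + s := by ring
        omega
      exact_mod_cast h3.trans (Nat.mul_le_mul_right m (by omega))
  · intro χ hχ
    by_cases h2 : 2 ≤ d0
    · obtain ⟨m, e⟩ := hd0'
      obtain ⟨A, h1, h3⟩ := exists_nonspan (n := n) s d0 ((d0 - 2) / (2 * s)) ⟨m, e⟩ hs (by
        have := Nat.mul_div_le (d0 - 2) (2 * s)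
        omega)
      have h4 : ¬ χ ≤ A.card := fun h => h3 A (Subset.refl _) (hχ A h)
      rw [hterm d0 m h2 e]
      rw [Nat.div_eq_of_eq_mul_right (by omega) e] at h1
      omega
    · have e : d0 = 1 := by
        have := Nat.pos_of_dvd_of_pos hd0' hn
        omega
      subst e
      have : (((1 : ℕ) : ℤ) - 2) / (2 * s) = -1 :=
        Int.ediv_eq_neg_one_of_neg_of_le (by norm_num) (by omega)
      rw [term, this]
      simp only [Nat.cast_one, Int.ediv_one]
      omega
  · rintro x ⟨d, hd, rfl⟩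
    exact hmax' d hd

end Pool.Agent.Results.MP_c7e63d_co.Exact
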